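import Mathlib
import Pool.Agent.R538.KI.In

/-!
# Maximum regular `k`-independent sets on regular graphs

The problem reg-`k`MIS restricted to `r`-regular graphs is NP-complete for all `k ≥ 1` and
`r ≥ max {3, k + 1}`.
-/

set_option autoImplicit false

namespace Pool.Agent.Results.MP_e81a45_lc.NPComplete

open Pool.Agent.NPC Pool.Agent.R550.GB Pool.Agent.R538.KI

/-- reg-`k`MIS restricted to `r`-regular graphs, as a language: `I.1` are the adjacency lists of an
`r`-regular graph, `I.2 ≥ 1`, and the graph has a regular `k`-independent set with at least `I.2`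
vertices. -/
def Restricted (k r : ℕ) (I : List (List ℕ) × ℕ) : Prop :=
  (IsReg (graph I.1) r ∧ 1 ≤ I.2) ∧ RegKMIS k I

/-- **Theorem.** For all `k ≥ 1` and `r ≥ max {3, k + 1}`, reg-`k`MIS restricted to `r`-regular
graphs is NP-complete: it is in NP, it is NP-hard as a language, and it is NP-hard as a promise
problem (every problem in NP reduces to reg-`k`MIS by a polynomial-time many-one reduction all of
whose outputs are pairs of an `r`-regular graph and a threshold `p ≥ 1`). -/
theorem result (k r : ℕ) (hk : 1 ≤ k) (hr : max 3 (k + 1) ≤ r) :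
    InNPP (Restricted k r) ∧ NPHardP (Restricted k r) ∧
      Pool.Agent.H673R2.NPHardOn
        (fun I : List (List ℕ) × ℕ => IsReg (graph I.1) r ∧ 1 ≤ I.2) (RegKMIS k) := by
  have h := hard k r hk ((le_max_left _ _).trans hr) ((le_max_right _ _).trans hr)
  refine ⟨inNP k r, ?_, h⟩
  intro L hL
  obtain ⟨f, hf, hfp, hfL⟩ := h L hL
  exact ⟨fun x => bits (f x), hf, fun x =>
    (show x ∈ L ↔ Restricted k r (f x) from
      ⟨fun hx => ⟨hfp x, (hfL x).1 hx⟩, fun hx => (hfL x).2 hx.2⟩).trans bits_mem_lang.symm⟩

end Pool.Agent.Results.MP_e81a45_lc.NPComplete
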